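import Mathlib

namespace Pool.Agent.Work.MP_97f5de_co

open Finset

/-- one greedy step for intervals `[α y, β y]` -/
lemma step {Y : Type*} [DecidableEq Y] (α β : Y → ℕ) (S : Finset Y)
    (hS : S.Nonempty) (s : ℕ) :
    (∃ T ⊆ S, s < T.card ∧ ∃ t, ∀ y ∈ T, α y ≤ t ∧ t ≤ β y) ∨
    (∃ y1 ∈ S, ∃ S' ⊆ S, S.card ≤ S'.card + s ∧ ∀ y ∈ S', β y1 < α y) := by
  obtain ⟨y1, hy1, hmin⟩ := Finset.exists_min_image S β hS
  by_cases h : s < (S.filter (fun y => α y ≤ β y1)).card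
  · left
    refine ⟨_, Finset.filter_subset _ _, h, β y1, ?_⟩
    intro y hy
    rw [Finset.mem_filter] at hy
    exact ⟨hy.2, hmin y hy.1⟩
  · right
    refine ⟨y1, hy1, S.filter (fun y => ¬ α y ≤ β y1), Finset.filter_subset _ _, ?_, ?_⟩
    · have := Finset.card_filter_add_card_filter_not (s := S) (fun y => α y ≤ β y1)
      omega
    · intro y hy
      rw [Finset.mem_filter] at hy
      omega

lemma chain {Y : Type*} [DecidableEq Y] (α β : Y → ℕ) (S : Finset Y)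
    (s : ℕ) (hS : 3 * s < S.card) :
    (∃ T ⊆ S, s < T.card ∧ ∃ t, ∀ y ∈ T, α y ≤ t ∧ t ≤ β y) ∨
    (∃ y1 ∈ S, ∃ y2 ∈ S, ∃ y3 ∈ S, ∃ y4 ∈ S, β y1 < α y2 ∧ β y2 < α y3 ∧ β y3 < α y4) := by
  rcases step α β S (Finset.card_pos.1 (by omega)) s with h | ⟨y1, hy1, S1, hS1, hc1, h1⟩
  · left; exact h
  rcases step α β S1 (Finset.card_pos.1 (by omega)) s with h | ⟨y2, hy2, S2, hS2, hc2, h2⟩
  · left
    obtain ⟨T, hT, hT2⟩ := h
    exact ⟨T, hT.trans hS1, hT2⟩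
  rcases step α β S2 (Finset.card_pos.1 (by omega)) s with h | ⟨y3, hy3, S3, hS3, hc3, h3⟩
  · left
    obtain ⟨T, hT, hT2⟩ := h
    exact ⟨T, hT.trans (hS2.trans hS1), hT2⟩
  · right
    obtain ⟨y4, hy4⟩ : S3.Nonempty := Finset.card_pos.1 (by omega)
    exact ⟨y1, hy1, y2, hS1 hy2, y3, hS1 (hS2 hy3), y4, hS1 (hS2 (hS3 hy4)), h1 y2 hy2,
      h2 y3 hy3, h3 y4 hy4⟩

lemma three {Y : Type*} [DecidableEq Y] (f g : Y → ℕ) (T : Finset Y) (hT : 2 < T.card)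
    (hf : Set.InjOn f T) (hg : Set.InjOn g T) :
    ∃ p ∈ T, ∃ q ∈ T, ∃ s ∈ T, p ≠ q ∧ q ≠ s ∧ p ≠ s ∧ f p < f q ∧ g q < g s := by
  have hne : T.Nonempty := Finset.card_pos.1 (by omega)
  obtain ⟨q0, hq0, hq0max⟩ := Finset.exists_max_image T f hne
  obtain ⟨s0, hs0, hs0max⟩ := Finset.exists_max_image T g hne
  by_cases hqs : q0 = s0
  · subst hqs
    have hne2 : (T.erase q0).Nonempty := by
      apply Finset.card_pos.1
      rw [Finset.card_erase_of_mem hq0]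
      omega
    obtain ⟨q, hq, hqmax⟩ := Finset.exists_max_image (T.erase q0) f hne2
    have hne3 : ((T.erase q0).erase q).Nonempty := by
      apply Finset.card_pos.1
      rw [Finset.card_erase_of_mem hq, Finset.card_erase_of_mem hq0]
      omega
    obtain ⟨p, hp⟩ := hne3
    have hp1 := Finset.mem_erase.1 hp
    have hp2 := Finset.mem_erase.1 hp1.2
    have hq2 := Finset.mem_erase.1 hq
    refine ⟨p, hp2.2, q, hq2.2, q0, hq0, hp1.1, hq2.1, hp2.1, ?_, ?_⟩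
    · exact lt_of_le_of_ne (hqmax p hp1.2) (fun h => hp1.1 (hf hp2.2 hq2.2 h))
    · exact lt_of_le_of_ne (hs0max q hq2.2) (fun h => hq2.1 (hg hq2.2 hq0 h))
  · have hs0' : s0 ∈ T.erase q0 := Finset.mem_erase.2 ⟨Ne.symm hqs, hs0⟩
    have hne3 : ((T.erase q0).erase s0).Nonempty := by
      apply Finset.card_pos.1
      rw [Finset.card_erase_of_mem hs0', Finset.card_erase_of_mem hq0]
      omega
    obtain ⟨p, hp⟩ := hne3
    have hp1 := Finset.mem_erase.1 hp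
    have hp2 := Finset.mem_erase.1 hp1.2
    refine ⟨p, hp2.2, q0, hq0, s0, hs0, hp2.1, hqs, hp1.1, ?_, ?_⟩
    · exact lt_of_le_of_ne (hq0max p hp2.2) (fun h => hp2.1 (hf hp2.2 hq0 h))
    · exact lt_of_le_of_ne (hs0max q0 hq0) (fun h => hqs (hg hq0 hs0 h))

/-- The pattern appears in every injective array with `7` rows and many columns, with the blocks
being rows or with the blocks being columns. -/
theorem ramsey : ∃ M : ℕ, ∀ a : Fin 7 → Fin M → ℕ,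
    (∀ i j i' j', a i j = a i' j' → i = i' ∧ j = j') →
    (∃ r1 r2 r3 r4 : Fin 7, ∃ p q s : Fin M, r1 ≠ r2 ∧ r1 ≠ r3 ∧ r1 ≠ r4 ∧ r2 ≠ r3 ∧ r2 ≠ r4 ∧
      r3 ≠ r4 ∧ p ≠ q ∧ q ≠ s ∧ p ≠ s ∧ a r1 p < a r1 q ∧ a r1 q < a r2 s ∧ a r2 s < a r3 p ∧
      a r3 p < a r4 q ∧ a r4 q < a r4 s) ∨
    (∃ c1 c2 c3 c4 : Fin M, ∃ p q s : Fin 7, c1 ≠ c2 ∧ c1 ≠ c3 ∧ c1 ≠ c4 ∧ c2 ≠ c3 ∧ c2 ≠ c4 ∧
      c3 ≠ c4 ∧ p ≠ q ∧ q ≠ s ∧ p ≠ s ∧ a p c1 < a q c1 ∧ a q c1 < a s c2 ∧ a s c2 < a p c3 ∧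
      a p c3 < a q c4 ∧ a q c4 < a s c4) := by
  obtain ⟨M, hM⟩ : ∃ M, M = Fintype.card (Equiv.Perm (Fin 7)) * 54 + 1 := ⟨_, rfl⟩
  refine ⟨M, ?_⟩
  intro a ha
  -- pigeonhole
  obtain ⟨σ, hσ⟩ := Fintype.exists_lt_card_fiber_of_mul_lt_card
    (f := fun y : Fin M => Tuple.sort (fun i => a i y)) (n := 54) (by
      rw [Fintype.card_fin]; omega)
  set S := Finset.univ.filter (fun y : Fin M => Tuple.sort (fun i => a i y) = σ) with hSdef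
  let b : Fin 7 → Fin M → ℕ := fun i y => a (σ i) y
  have hb : ∀ i j i' j', b i j = b i' j' → i = i' ∧ j = j' := by
    intro i j i' j' h
    obtain ⟨h1, h2⟩ := ha _ _ _ _ h
    exact ⟨σ.injective h1, h2⟩
  have hmono : ∀ y ∈ S, ∀ i j : Fin 7, i < j → b i y < b j y := by
    intro y hy i j hij
    rw [hSdef, Finset.mem_filter] at hy
    have h1 := Tuple.monotone_sort (fun i => a i y)
    rw [hy.2] at h1
    have h2 : b i y ≤ b j y := h1 hij.le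
    refine lt_of_le_of_ne h2 (fun h => ?_)
    exact hij.ne (hb _ _ _ _ h).1
  -- the column version from a chain of disjoint intervals
  have hcol : ∀ i0 i1 i2 : Fin 7, i0 < i1 → i1 < i2 → ∀ y1 ∈ S, ∀ y2 ∈ S, ∀ y3 ∈ S, ∀ y4 ∈ S,
      b i2 y1 < b i0 y2 → b i2 y2 < b i0 y3 → b i2 y3 < b i0 y4 →
      (∃ c1 c2 c3 c4 : Fin M, ∃ p q s : Fin 7, c1 ≠ c2 ∧ c1 ≠ c3 ∧ c1 ≠ c4 ∧ c2 ≠ c3 ∧ c2 ≠ c4 ∧
      c3 ≠ c4 ∧ p ≠ q ∧ q ≠ s ∧ p ≠ s ∧ a p c1 < a q c1 ∧ a q c1 < a s c2 ∧ a s c2 < a p c3 ∧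
      a p c3 < a q c4 ∧ a q c4 < a s c4) := by
    intro i0 i1 i2 h01 h12 y1 hy1 y2 hy2 y3 hy3 y4 hy4 g1 g2 g3
    have e1 := hmono y1 hy1 i0 i1 h01
    have e2 := hmono y1 hy1 i1 i2 h12
    have e3 := hmono y2 hy2 i0 i2 (h01.trans h12)
    have e4 := hmono y3 hy3 i0 i2 (h01.trans h12)
    have e5 := hmono y4 hy4 i0 i1 h01
    have e6 := hmono y4 hy4 i1 i2 h12
    have n1 : b i0 y1 < b i0 y2 := by omega
    have n2 : b i0 y2 < b i0 y3 := by omega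
    have n3 : b i0 y3 < b i0 y4 := by omega
    refine ⟨y1, y2, y3, y4, σ i0, σ i1, σ i2, ?_, ?_, ?_, ?_, ?_, ?_, ?_, ?_, ?_, e1, ?_, g2, ?_, e6⟩
    · rintro rfl; omega
    · rintro rfl; omega
    · rintro rfl; omega
    · rintro rfl; omega
    · rintro rfl; omega
    · rintro rfl; omega
    · exact fun h => h01.ne (σ.injective h)
    · exact fun h => h12.ne (σ.injective h)
    · exact fun h => (h01.trans h12).ne (σ.injective h)
    · change b i1 y1 < b i2 y2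
      omega
    · change b i0 y3 < b i1 y4
      omega
  have hab : ∀ i j : Fin 7, i < j → ∀ T ⊆ S, ∀ s, 3 * s < T.card →
      (∃ T' ⊆ T, s < T'.card ∧ ∃ t, ∀ y ∈ T', b i y ≤ t ∧ t ≤ b j y) ∨
      (∃ y1 ∈ T, ∃ y2 ∈ T, ∃ y3 ∈ T, ∃ y4 ∈ T, b j y1 < b i y2 ∧ b j y2 < b i y3 ∧
        b j y3 < b i y4) := by
    intro i j hij T hT s hs
    have := chain (fun y => b i y) (fun y => max (b i y) (b j y)) T s hs
    rcases this with ⟨T', hT', hc, t, ht⟩ | ⟨y1, hy1, y2, hy2, y3, hy3, y4, hy4, h1, h2, h3⟩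
    · left
      refine ⟨T', hT', hc, t, ?_⟩
      intro y hy
      have h1 := ht y hy
      have h2 := hmono y (hT (hT' hy)) i j hij
      refine ⟨h1.1, ?_⟩
      have h3 := h1.2
      rwa [max_eq_right h2.le] at h3
    · right
      refine ⟨y1, hy1, y2, hy2, y3, hy3, y4, hy4, ?_, ?_, ?_⟩
      · exact lt_of_le_of_lt (le_max_right _ _) h1
      · exact lt_of_le_of_lt (le_max_right _ _) h2
      · exact lt_of_le_of_lt (le_max_right _ _) h3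
  rcases hab 0 2 (by decide) S (Finset.Subset.refl _) 18 (by omega) with
    ⟨T1, hT1, hc1, t1, ht1⟩ | ⟨y1, hy1, y2, hy2, y3, hy3, y4, hy4, h1, h2, h3⟩
  swap
  · right
    exact hcol 0 1 2 (by decide) (by decide) y1 hy1 y2 hy2 y3 hy3 y4 hy4 h1 h2 h3
  rcases hab 2 4 (by decide) T1 hT1 6 (by omega) with
    ⟨T2, hT2, hc2, t2, ht2⟩ | ⟨y1, hy1, y2, hy2, y3, hy3, y4, hy4, h1, h2, h3⟩
  swap
  · right
    exact hcol 2 3 4 (by decide) (by decide) y1 (hT1 hy1) y2 (hT1 hy2) y3 (hT1 hy3) y4 (hT1 hy4)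
      h1 h2 h3
  rcases hab 4 6 (by decide) T2 (hT2.trans hT1) 2 (by omega) with
    ⟨T3, hT3, hc3, t3, ht3⟩ | ⟨y1, hy1, y2, hy2, y3, hy3, y4, hy4, h1, h2, h3⟩
  swap
  · right
    exact hcol 4 5 6 (by decide) (by decide) y1 (hT1 (hT2 hy1)) y2 (hT1 (hT2 hy2))
      y3 (hT1 (hT2 hy3)) y4 (hT1 (hT2 hy4)) h1 h2 h3
  left
  obtain ⟨p, hp, q, hq, s, hs, hpq, hqs, hps, hfp, hgq⟩ := three (fun y => b 0 y) (fun y => b 6 y)
    T3 hc3 (fun x _ y _ h => (hb _ _ _ _ h).2) (fun x _ y _ h => (hb _ _ _ _ h).2)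
  have hinj : ∀ i j : Fin 7, i ≠ j → σ i ≠ σ j := fun i j h h' => h (σ.injective h')
  refine ⟨σ 0, σ 2, σ 4, σ 6, p, q, s, hinj _ _ (by decide), hinj _ _ (by decide),
    hinj _ _ (by decide), hinj _ _ (by decide), hinj _ _ (by decide), hinj _ _ (by decide),
    hpq, hqs, hps, hfp, ?_, ?_, ?_, hgq⟩
  · refine lt_of_le_of_ne ((ht1 q (hT2 (hT3 hq))).1.trans (ht1 s (hT2 (hT3 hs))).2) (fun h => ?_)
    exact hqs (ha _ _ _ _ h).2
  · refine lt_of_le_of_ne ((ht2 s (hT3 hs)).1.trans (ht2 p (hT3 hp)).2) (fun h => ?_)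
    exact hps (ha _ _ _ _ h).2.symm
  · refine lt_of_le_of_ne ((ht3 p hp).1.trans (ht3 q hq).2) (fun h => ?_)
    exact hpq (ha _ _ _ _ h).2

end Pool.Agent.Work.MP_97f5de_co
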