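import Mathlib
import Pool.Agent.Work.MP_97f5de_co.Ramsey

namespace Pool.Agent.Work.MP_97f5de_co

open Finset

/-- the path with `7` vertices -/
def P7 : SimpleGraph (Fin 7) where
  Adj u v := u.val + 1 = v.val ∨ v.val + 1 = u.val
  symm := ⟨fun _ _ h => h.symm⟩
  loopless := ⟨fun u h => by omega⟩

instance : DecidableRel P7.Adj := fun u v => by unfold P7; infer_instance

def r : Fin 6 → ℕ := ![4, 1, 2, 5, 6, 3]

/-- the edge ranks `4,1,2,5,6,3` along the path -/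
def rk : Sym2 (Fin 7) → ℕ :=
  Sym2.lift ⟨fun u v => if h : min u.val v.val < 6 then r ⟨min u.val v.val, h⟩ else 0, fun u v => by
    simp only [min_comm]⟩

lemma edge_cases (e : Sym2 (Fin 7)) (he : e ∈ P7.edgeSet) :
    ∃ i : Fin 6, e = s(i.castSucc, i.succ) := by
  induction e with
  | _ u v =>
    have h : u.val + 1 = v.val ∨ v.val + 1 = u.val := he
    rcases h with h | h
    · refine ⟨⟨u.val, by omega⟩, ?_⟩
      congr 1
      ext
      simp [h]
    · refine ⟨⟨v.val, by omega⟩, ?_⟩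
      rw [Sym2.eq_swap]
      congr 1
      ext
      simp [h]

lemma edge_mem (i : Fin 6) : s(i.castSucc, i.succ) ∈ P7.edgeSet := by
  change P7.Adj i.castSucc i.succ
  left
  simp

lemma rk_edge : ∀ i : Fin 6, rk s(i.castSucc, i.succ) = r i := by decide

lemma r_inj : Function.Injective r := by decide

lemma rk_injOn : Set.InjOn rk P7.edgeSet := by
  intro e he e' he' h
  obtain ⟨i, rfl⟩ := edge_cases e he
  obtain ⟨j, rfl⟩ := edge_cases e' he'
  rw [rk_edge, rk_edge] at h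
  rw [r_inj h]

lemma P7_connected : P7.Connected := by
  have : P7 = SimpleGraph.pathGraph 7 := by
    ext u v
    rw [SimpleGraph.pathGraph_adj]
    rfl
  rw [this]
  exact SimpleGraph.pathGraph_connected 6

lemma P7_acyclic : P7.IsAcyclic := by
  have h : P7.IsTree := by
    rw [SimpleGraph.isTree_iff_connected_and_card]
    refine ⟨P7_connected, ?_⟩
    rw [Nat.card_eq_fintype_card, Nat.card_eq_fintype_card]
    decide
  exact h.isAcyclic

/-- an order embedding condition reduces to a chain of five inequalities -/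
lemma order_of_chain {V : Type*} (h : Sym2 V → ℕ) (φ : Fin 7 → V)
    (h1 : h s(φ 1, φ 2) < h s(φ 2, φ 3)) (h2 : h s(φ 2, φ 3) < h s(φ 5, φ 6))
    (h3 : h s(φ 5, φ 6) < h s(φ 0, φ 1)) (h4 : h s(φ 0, φ 1) < h s(φ 3, φ 4))
    (h5 : h s(φ 3, φ 4) < h s(φ 4, φ 5)) :
    ∀ e₁ ∈ P7.edgeSet, ∀ e₂ ∈ P7.edgeSet, rk e₁ < rk e₂ → h (Sym2.map φ e₁) < h (Sym2.map φ e₂) := by
  intro e₁ he₁ e₂ he₂ hlt
  obtain ⟨i, rfl⟩ := edge_cases e₁ he₁
  obtain ⟨j, rfl⟩ := edge_cases e₂ he₂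
  rw [rk_edge, rk_edge] at hlt
  have key : ∀ i j : Fin 6, r i < r j →
      h s(φ i.castSucc, φ i.succ) < h s(φ j.castSucc, φ j.succ) := by
    intro i j hij
    have e0 : h s(φ (Fin.castSucc 0), φ (Fin.succ 0)) = h s(φ 0, φ 1) := rfl
    have e1 : h s(φ (Fin.castSucc 1), φ (Fin.succ 1)) = h s(φ 1, φ 2) := rfl
    have e2 : h s(φ (Fin.castSucc 2), φ (Fin.succ 2)) = h s(φ 2, φ 3) := rfl
    have e3 : h s(φ (Fin.castSucc 3), φ (Fin.succ 3)) = h s(φ 3, φ 4) := rfl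
    have e4 : h s(φ (Fin.castSucc 4), φ (Fin.succ 4)) = h s(φ 4, φ 5) := rfl
    have e5 : h s(φ (Fin.castSucc 5), φ (Fin.succ 5)) = h s(φ 5, φ 6) := rfl
    have hi : i = 0 ∨ i = 1 ∨ i = 2 ∨ i = 3 ∨ i = 4 ∨ i = 5 := by omega
    have hj : j = 0 ∨ j = 1 ∨ j = 2 ∨ j = 3 ∨ j = 4 ∨ j = 5 := by omega
    have r0 : r 0 = 4 := rfl
    have r1 : r 1 = 1 := rfl
    have r2 : r 2 = 2 := rfl
    have r3 : r 3 = 5 := rfl
    have r4 : r 4 = 6 := rfl
    have r5 : r 5 = 3 := rfl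
    rcases hi with rfl | rfl | rfl | rfl | rfl | rfl <;>
    rcases hj with rfl | rfl | rfl | rfl | rfl | rfl <;> omega
  exact key i j hlt

/-- the converse direction -/
lemma chain_of_order {V : Type*} (h : Sym2 V → ℕ) (φ : Fin 7 → V)
    (H : ∀ e₁ ∈ P7.edgeSet, ∀ e₂ ∈ P7.edgeSet, rk e₁ < rk e₂ →
      h (Sym2.map φ e₁) < h (Sym2.map φ e₂)) :
    h s(φ 1, φ 2) < h s(φ 2, φ 3) ∧ h s(φ 2, φ 3) < h s(φ 5, φ 6) ∧
    h s(φ 5, φ 6) < h s(φ 0, φ 1) ∧ h s(φ 0, φ 1) < h s(φ 3, φ 4) ∧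
    h s(φ 3, φ 4) < h s(φ 4, φ 5) := by
  have key : ∀ i j : Fin 6, r i < r j →
      h s(φ i.castSucc, φ i.succ) < h s(φ j.castSucc, φ j.succ) := by
    intro i j hij
    exact H _ (edge_mem i) _ (edge_mem j) (by rw [rk_edge, rk_edge]; exact hij)
  exact ⟨key 1 2 (by decide), key 2 5 (by decide), key 5 0 (by decide), key 0 3 (by decide),
    key 3 4 (by decide)⟩

/-- complete bipartite graph with parts of sizes `7` and `M` on `Fin (7 + M)` -/
def K (M : ℕ) : SimpleGraph (Fin (7 + M)) where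
  Adj u v := (u.val < 7 ∧ 7 ≤ v.val) ∨ (v.val < 7 ∧ 7 ≤ u.val)
  symm := ⟨fun _ _ h => h.symm⟩
  loopless := ⟨fun u h => by omega⟩

lemma K_colorable (M : ℕ) : (K M).Colorable 2 := by
  refine ⟨SimpleGraph.Coloring.mk (fun u => if u.val < 7 then (0 : Fin 2) else 1) ?_⟩
  intro u v h
  have h' : (u.val < 7 ∧ 7 ≤ v.val) ∨ (v.val < 7 ∧ 7 ≤ u.val) := h
  rcases h' with h' | h'
  · rw [if_pos h'.1, if_neg (by omega)]; decide
  · rw [if_neg (by omega), if_pos h'.1]; decide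

lemma adj_path {V : Type*} (G : SimpleGraph V) (φ : Fin 7 → V)
    (h0 : G.Adj (φ 0) (φ 1)) (h1 : G.Adj (φ 1) (φ 2)) (h2 : G.Adj (φ 2) (φ 3))
    (h3 : G.Adj (φ 3) (φ 4)) (h4 : G.Adj (φ 4) (φ 5)) (h5 : G.Adj (φ 5) (φ 6)) :
    ∀ u v : Fin 7, P7.Adj u v → G.Adj (φ u) (φ v) := by
  have key : ∀ u v : Fin 7, u.val + 1 = v.val → G.Adj (φ u) (φ v) := by
    intro u v h
    have hu : (u = 0 ∧ v = 1) ∨ (u = 1 ∧ v = 2) ∨ (u = 2 ∧ v = 3) ∨ (u = 3 ∧ v = 4) ∨
      (u = 4 ∧ v = 5) ∨ (u = 5 ∧ v = 6) := by omega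
    rcases hu with ⟨rfl, rfl⟩ | ⟨rfl, rfl⟩ | ⟨rfl, rfl⟩ | ⟨rfl, rfl⟩ | ⟨rfl, rfl⟩ | ⟨rfl, rfl⟩
    · exact h0
    · exact h1
    · exact h2
    · exact h3
    · exact h4
    · exact h5
  intro u v h
  rcases h with h | h
  · exact key u v h
  · exact (key v u h).symm

lemma inj7 {V : Type*} (φ : Fin 7 → V) (h01 : φ 0 ≠ φ 1) (h02 : φ 0 ≠ φ 2) (h03 : φ 0 ≠ φ 3)
    (h04 : φ 0 ≠ φ 4) (h05 : φ 0 ≠ φ 5) (h06 : φ 0 ≠ φ 6) (h12 : φ 1 ≠ φ 2) (h13 : φ 1 ≠ φ 3)
    (h14 : φ 1 ≠ φ 4) (h15 : φ 1 ≠ φ 5) (h16 : φ 1 ≠ φ 6) (h23 : φ 2 ≠ φ 3) (h24 : φ 2 ≠ φ 4)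
    (h25 : φ 2 ≠ φ 5) (h26 : φ 2 ≠ φ 6) (h34 : φ 3 ≠ φ 4) (h35 : φ 3 ≠ φ 5) (h36 : φ 3 ≠ φ 6)
    (h45 : φ 4 ≠ φ 5) (h46 : φ 4 ≠ φ 6) (h56 : φ 5 ≠ φ 6) : Function.Injective φ := by
  have key : ∀ u v : Fin 7, u < v → φ u ≠ φ v := by
    intro u v huv
    have hu : u = 0 ∨ u = 1 ∨ u = 2 ∨ u = 3 ∨ u = 4 ∨ u = 5 ∨ u = 6 := by omega
    have hv : v = 0 ∨ v = 1 ∨ v = 2 ∨ v = 3 ∨ v = 4 ∨ v = 5 ∨ v = 6 := by omega
    rcases hu with rfl | rfl | rfl | rfl | rfl | rfl | rfl <;>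
    rcases hv with rfl | rfl | rfl | rfl | rfl | rfl | rfl <;>
    first
      | assumption
      | exact absurd huv (by decide)
  intro u v h
  rcases lt_trichotomy u v with h1 | h1 | h1
  · exact absurd h (key u v h1)
  · exact h1
  · exact absurd h.symm (key v u h1)

/-- every edge-ordering of some bipartite graph contains the ordered path -/
theorem contained : ∃ m : ℕ, ∃ H : SimpleGraph (Fin m), H.Colorable 2 ∧
    ∀ h : Sym2 (Fin m) → ℕ, Set.InjOn h H.edgeSet →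
      ∃ φ : Fin 7 → Fin m, Function.Injective φ ∧
        (∀ u v : Fin 7, P7.Adj u v → H.Adj (φ u) (φ v)) ∧
        ∀ e₁ ∈ P7.edgeSet, ∀ e₂ ∈ P7.edgeSet,
          rk e₁ < rk e₂ → h (Sym2.map φ e₁) < h (Sym2.map φ e₂) := by
  obtain ⟨M, hM⟩ := ramsey
  refine ⟨7 + M, K M, K_colorable M, ?_⟩
  intro h hinj
  let R : Fin 7 → Fin (7 + M) := Fin.castAdd M
  let C : Fin M → Fin (7 + M) := Fin.natAdd 7
  have hadj : ∀ i j, (K M).Adj (R i) (C j) := by
    intro i j
    left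
    refine ⟨?_, ?_⟩
    · simp [R]
    · simp [C]
  have hRC : ∀ i j, R i ≠ C j := fun i j => (hadj i j).ne
  have hR : Function.Injective R := Fin.castAdd_injective 7 M
  have hC : Function.Injective C := Fin.natAdd_injective M 7
  have hcomm : ∀ i j, h s(C j, R i) = h s(R i, C j) := by
    intro i j; rw [Sym2.eq_swap]
  have := hM (fun i j => h s(R i, C j)) (by
    intro i j i' j' hh
    have := hinj (hadj i j) (hadj i' j') hh
    rw [Sym2.eq_iff] at this
    rcases this with ⟨h1, h2⟩ | ⟨h1, h2⟩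
    · exact ⟨hR h1, hC h2⟩
    · exact absurd h1 (hRC _ _))
  rcases this with ⟨r1, r2, r3, r4, p, q, s, n12, n13, n14, n23, n24, n34, npq, nqs, nps,
      g1, g2, g3, g4, g5⟩ | ⟨c1, c2, c3, c4, p, q, s, n12, n13, n14, n23, n24, n34, npq, nqs, nps,
      g1, g2, g3, g4, g5⟩
  · refine ⟨![R r3, C p, R r1, C q, R r4, C s, R r2], ?_, ?_, ?_⟩
    · have i1 : ∀ {a b}, a ≠ b → R a ≠ R b := fun h h' => h (hR h')
      have i2 : ∀ {a b}, a ≠ b → C a ≠ C b := fun h h' => h (hC h')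
      apply inj7
      · exact hRC _ _
      · exact i1 n13.symm
      · exact hRC _ _
      · exact i1 n34
      · exact hRC _ _
      · exact i1 n23.symm
      · exact (hRC _ _).symm
      · exact i2 npq
      · exact (hRC _ _).symm
      · exact i2 nps
      · exact (hRC _ _).symm
      · exact hRC _ _
      · exact i1 n14
      · exact hRC _ _
      · exact i1 n12
      · exact (hRC _ _).symm
      · exact i2 nqs
      · exact (hRC _ _).symm
      · exact hRC _ _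
      · exact i1 n24.symm
      · exact (hRC _ _).symm
    · exact adj_path _ _ (hadj _ _) (hadj _ _).symm (hadj _ _) (hadj _ _).symm (hadj _ _)
        (hadj _ _).symm
    · apply order_of_chain
      · change h s(C p, R r1) < h s(R r1, C q)
        rw [hcomm]; exact g1
      · change h s(R r1, C q) < h s(C s, R r2)
        rw [hcomm]; exact g2
      · change h s(C s, R r2) < h s(R r3, C p)
        rw [hcomm]; exact g3
      · change h s(R r3, C p) < h s(C q, R r4)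
        rw [hcomm]; exact g4
      · change h s(C q, R r4) < h s(R r4, C s)
        rw [hcomm]; exact g5
  · refine ⟨![C c3, R p, C c1, R q, C c4, R s, C c2], ?_, ?_, ?_⟩
    · have i1 : ∀ {a b}, a ≠ b → R a ≠ R b := fun h h' => h (hR h')
      have i2 : ∀ {a b}, a ≠ b → C a ≠ C b := fun h h' => h (hC h')
      apply inj7
      · exact (hRC _ _).symm
      · exact i2 n13.symm
      · exact (hRC _ _).symm
      · exact i2 n34
      · exact (hRC _ _).symm
      · exact i2 n23.symm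
      · exact hRC _ _
      · exact i1 npq
      · exact hRC _ _
      · exact i1 nps
      · exact hRC _ _
      · exact (hRC _ _).symm
      · exact i2 n14
      · exact (hRC _ _).symm
      · exact i2 n12
      · exact hRC _ _
      · exact i1 nqs
      · exact hRC _ _
      · exact (hRC _ _).symm
      · exact i2 n24.symm
      · exact hRC _ _
    · exact adj_path _ _ (hadj _ _).symm (hadj _ _) (hadj _ _).symm (hadj _ _) (hadj _ _).symm
        (hadj _ _)
    · apply order_of_chain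
      · change h s(R p, C c1) < h s(C c1, R q)
        rw [hcomm]; exact g1
      · change h s(C c1, R q) < h s(R s, C c2)
        rw [hcomm]; exact g2
      · change h s(R s, C c2) < h s(C c3, R p)
        rw [hcomm]; exact g3
      · change h s(C c3, R p) < h s(R q, C c4)
        rw [hcomm]; exact g4
      · change h s(R q, C c4) < h s(C c4, R s)
        rw [hcomm]; exact g5

end Pool.Agent.Work.MP_97f5de_co
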