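import Mathlib
import Pool.Agent.Work.MP_97f5de_co.Path

namespace Pool.Agent.Work.MP_97f5de_co

open Finset

/-- rank of an element in a finite linear order -/
noncomputable def rank {α : Type*} [Fintype α] [LinearOrder α] (a : α) : ℕ :=
  (Finset.univ.filter (fun x => x < a)).card

lemma rank_strictMono {α : Type*} [Fintype α] [LinearOrder α] :
    StrictMono (rank : α → ℕ) := by
  intro a b hab
  unfold rank
  apply Finset.card_lt_card
  rw [Finset.ssubset_iff_of_subset]
  · exact ⟨a, by simpa using hab, by simp⟩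
  · intro x hx
    simp only [mem_filter, mem_univ, true_and] at hx ⊢
    exact hx.trans hab

section Host

variable (k N W : ℕ)

/-- lines: an intercept vector and a `0/1` slope vector, ordered lexicographically -/
abbrev Ln := Lex (Fin k → Fin N) ×ₗ Lex (Fin k → Fin 2)

/-- points -/
abbrev Pt := Fin W × (Fin k → Fin (N + W))

variable {k N W}

def yv (l : Ln k N) (i : Fin k) : ℕ := ((ofLex (ofLex l).1) i).val
def sv (l : Ln k N) (i : Fin k) : ℕ := ((ofLex (ofLex l).2) i).val

lemma sv_lt (l : Ln k N) (i : Fin k) : sv l i < 2 := ((ofLex (ofLex l).2) i).isLt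
lemma yv_lt (l : Ln k N) (i : Fin k) : yv l i < N := ((ofLex (ofLex l).1) i).isLt

lemma ln_ext (l l' : Ln k N) (h1 : ∀ i, yv l i = yv l' i) (h2 : ∀ i, sv l i = sv l' i) :
    l = l' := by
  have e1 : (ofLex (ofLex l).1) = (ofLex (ofLex l').1) := by
    funext i; exact Fin.ext (h1 i)
  have e2 : (ofLex (ofLex l).2) = (ofLex (ofLex l').2) := by
    funext i; exact Fin.ext (h2 i)
  have e3 : (ofLex l).1 = (ofLex l').1 := ofLex.injective e1
  have e4 : (ofLex l).2 = (ofLex l').2 := ofLex.injective e2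
  exact ofLex.injective (Prod.ext e3 e4)

/-- incidence -/
def inc (l : Ln k N) (p : Pt k N W) : Prop :=
  ∀ i, (p.2 i : ℕ) = yv l i + (p.1.val + 1) * sv l i

/-- the point on the line `l` with abscissa `w + 1` -/
def pt (l : Ln k N) (w : Fin W) : Pt k N W :=
  (w, fun i => ⟨yv l i + (w.val + 1) * sv l i, by
    have h1 := yv_lt l i
    have h2 := sv_lt l i
    have h3 := w.isLt
    have h4 : (w.val + 1) * sv l i ≤ (w.val + 1) * 1 := Nat.mul_le_mul_left _ (by omega)
    omega⟩)

lemma inc_pt (l : Ln k N) (w : Fin W) : inc l (pt l w) := fun _ => rfl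

lemma eq_pt {l : Ln k N} {p : Pt k N W} (h : inc l p) : p = pt l p.1 := by
  refine Prod.ext rfl ?_
  funext i
  exact Fin.ext (h i)

/-- code of an incidence -/
noncomputable def cd (l : Ln k N) (w : Fin W) : ℕ := rank (toLex (l, w) : Ln k N ×ₗ Fin W)

lemma cd_lt {l l' : Ln k N} {w w' : Fin W} (h : cd l w < cd l' w') :
    l < l' ∨ (l = l' ∧ w < w') := by
  have h1 : (toLex (l, w) : Ln k N ×ₗ Fin W) < toLex (l', w') := rank_strictMono.lt_iff_lt.1 h
  rwa [Prod.Lex.toLex_lt_toLex] at h1

lemma cd_le_line {l l' : Ln k N} {w w' : Fin W} (h : cd l w < cd l' w') : l ≤ l' := by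
  rcases cd_lt h with h | h
  · exact h.le
  · exact h.1.le

lemma cd_inj {l l' : Ln k N} {w w' : Fin W} (h : cd l w = cd l' w') : l = l' ∧ w = w' := by
  have h1 : (toLex (l, w) : Ln k N ×ₗ Fin W) = toLex (l', w') := rank_strictMono.injective h
  have h2 := toLex.injective h1
  exact ⟨congrArg Prod.fst h2, congrArg Prod.snd h2⟩

/-- the host graph -/
def G0 (k N W : ℕ) : SimpleGraph (Ln k N ⊕ Pt k N W) where
  Adj
    | Sum.inl l, Sum.inr p => inc l p
    | Sum.inr p, Sum.inl l => inc l p
    | _, _ => False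
  symm := ⟨by
    rintro (a | a) (b | b) h
    · exact h
    · exact h
    · exact h
    · exact h⟩
  loopless := ⟨by
    rintro (a | a) h
    · exact h
    · exact h⟩

noncomputable def code : Ln k N ⊕ Pt k N W → Ln k N ⊕ Pt k N W → ℕ
    | Sum.inl l, Sum.inr p => cd l p.1
    | Sum.inr p, Sum.inl l => cd l p.1
    | _, _ => 0

/-- the edge order of the host graph -/
noncomputable def g0 : Sym2 (Ln k N ⊕ Pt k N W) → ℕ :=
  Sym2.lift ⟨code, by
    rintro (a | a) (b | b) <;> rfl⟩

lemma g0_lp (l : Ln k N) (p : Pt k N W) : g0 s(Sum.inl l, Sum.inr p) = cd l p.1 := rfl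
lemma g0_pl (l : Ln k N) (p : Pt k N W) : g0 s(Sum.inr p, Sum.inl l) = cd l p.1 := rfl

lemma edge0 (e : Sym2 (Ln k N ⊕ Pt k N W)) (he : e ∈ (G0 k N W).edgeSet) :
    ∃ l w, e = s(Sum.inl l, Sum.inr (pt l w)) := by
  induction e with
  | _ a b =>
    have h : (G0 k N W).Adj a b := he
    rcases a with a | a <;> rcases b with b | b
    · exact absurd h (by simp [G0])
    · have h' : inc a b := h
      exact ⟨a, b.1, by rw [← eq_pt h']⟩
    · have h' : inc b a := h
      exact ⟨b, a.1, by rw [← eq_pt h', Sym2.eq_swap]⟩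
    · exact absurd h (by simp [G0])

lemma g0_injOn : Set.InjOn (g0 (k := k) (N := N) (W := W)) (G0 k N W).edgeSet := by
  intro e he e' he' h
  obtain ⟨l, w, rfl⟩ := edge0 e he
  obtain ⟨l', w', rfl⟩ := edge0 e' he'
  rw [g0_lp, g0_lp] at h
  obtain ⟨rfl, h2⟩ := cd_inj h
  have h3 : w = w' := h2
  rw [h3]

lemma line_le {l l' : Ln k N} (h : l ≤ l') (i : Fin k) (hi : ∀ j < i, yv l j = yv l' j) :
    yv l i ≤ yv l' i := by
  have h1 : (ofLex l).1 ≤ (ofLex l').1 := by
    rcases (Prod.Lex.le_iff).1 h with h | h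
    · exact h.le
    · exact h.1.le
  rcases h1.lt_or_eq with h2 | h2
  · obtain ⟨j, hj1, hj2⟩ := h2
    rcases lt_trichotomy i j with hij | hij | hij
    · exact le_of_eq (congrArg Fin.val (hj1 i hij))
    · subst hij
      exact le_of_lt hj2
    · exfalso
      have := hi j hij
      have h3 : yv l j < yv l' j := hj2
      omega
  · unfold yv
    rw [h2]

/-- the heart of the matter -/
lemma core (l1 l2 l3 l4 : Ln k N) (a b c : Pt k N W) (h12 : l1 ≤ l2) (h23 : l2 ≤ l3)
    (h34 : l3 ≤ l4) (ha1 : inc l1 a) (ha3 : inc l3 a) (hb1 : inc l1 b) (hb4 : inc l4 b)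
    (hc2 : inc l2 c) (hc4 : inc l4 c) (hab : a.1 < b.1) (hbc : b.1 < c.1) : l1 = l2 := by
  have key : ∀ n : ℕ, ∀ i : Fin k, i.val = n → yv l1 i = yv l2 i ∧ yv l2 i = yv l3 i ∧
      yv l3 i = yv l4 i ∧ sv l1 i = sv l2 i := by
    intro n
    induction n using Nat.strong_induction_on with
    | _ n ih =>
      intro i hi
      have hlt : ∀ j < i, yv l1 j = yv l2 j ∧ yv l2 j = yv l3 j ∧
          yv l3 j = yv l4 j ∧ sv l1 j = sv l2 j := by
        intro j hj
        have : j.val < n := by rw [← hi]; exact hj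
        exact ih j.val this j rfl
      have e12 := line_le h12 i (fun j hj => (hlt j hj).1)
      have e23 := line_le h23 i (fun j hj => (hlt j hj).2.1)
      have e34 := line_le h34 i (fun j hj => (hlt j hj).2.2.1)
      have a1 := ha1 i
      have a3 := ha3 i
      have b1 := hb1 i
      have b4 := hb4 i
      have c2 := hc2 i
      have c4 := hc4 i
      have s1 := sv_lt l1 i
      have s2 := sv_lt l2 i
      have s3 := sv_lt l3 i
      have s4 := sv_lt l4 i
      have wab : a.1.val < b.1.val := hab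
      have wbc : b.1.val < c.1.val := hbc
      generalize yv l1 i = y1 at *
      generalize yv l2 i = y2 at *
      generalize yv l3 i = y3 at *
      generalize yv l4 i = y4 at *
      generalize sv l1 i = u1 at *
      generalize sv l2 i = u2 at *
      generalize sv l3 i = u3 at *
      generalize sv l4 i = u4 at *
      generalize (a.2 i : ℕ) = xa at *
      generalize (b.2 i : ℕ) = xb at *
      generalize (c.2 i : ℕ) = xc at *
      generalize a.1.val = wa at *
      generalize b.1.val = wb at *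
      generalize c.1.val = wc at *
      have t1 : u1 = 0 ∨ u1 = 1 := by omega
      have t2 : u2 = 0 ∨ u2 = 1 := by omega
      have t3 : u3 = 0 ∨ u3 = 1 := by omega
      have t4 : u4 = 0 ∨ u4 = 1 := by omega
      rcases t1 with rfl | rfl <;> rcases t2 with rfl | rfl <;> rcases t3 with rfl | rfl <;>
        rcases t4 with rfl | rfl <;> omega
  exact ln_ext l1 l2 (fun i => (key i.val i rfl).1) (fun i => (key i.val i rfl).2.2.2)

theorem free0 : ¬ ∃ φ : Fin 7 → Ln k N ⊕ Pt k N W, Function.Injective φ ∧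
    (∀ u v : Fin 7, P7.Adj u v → (G0 k N W).Adj (φ u) (φ v)) ∧
    ∀ e₁ ∈ P7.edgeSet, ∀ e₂ ∈ P7.edgeSet,
      rk e₁ < rk e₂ → g0 (Sym2.map φ e₁) < g0 (Sym2.map φ e₂) := by
  rintro ⟨φ, hinj, hadj, hord⟩
  obtain ⟨g1, g2, g3, g4, g5⟩ := chain_of_order g0 φ hord
  have a01 := hadj 0 1 (Or.inl rfl)
  have a12 := hadj 1 2 (Or.inl rfl)
  have a23 := hadj 2 3 (Or.inl rfl)
  have a34 := hadj 3 4 (Or.inl rfl)
  have a45 := hadj 4 5 (Or.inl rfl)
  have a56 := hadj 5 6 (Or.inl rfl)
  rcases h0 : φ 0 with l3 | p0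
  · rcases h1 : φ 1 with l | a
    · rw [h0, h1] at a01; exact a01
    rcases h2 : φ 2 with l1 | p
    swap
    · rw [h1, h2] at a12; exact a12
    rcases h3 : φ 3 with l | b
    · rw [h2, h3] at a23; exact a23
    rcases h4 : φ 4 with l4 | p
    swap
    · rw [h3, h4] at a34; exact a34
    rcases h5 : φ 5 with l | c
    · rw [h4, h5] at a45; exact a45
    rcases h6 : φ 6 with l2 | p
    swap
    · rw [h5, h6] at a56; exact a56
    rw [h0, h1] at a01
    rw [h1, h2] at a12
    rw [h2, h3] at a23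
    rw [h3, h4] at a34
    rw [h4, h5] at a45
    rw [h5, h6] at a56
    rw [h1, h2, h3] at g1
    rw [h2, h3, h5, h6] at g2
    rw [h5, h6, h0, h1] at g3
    rw [h0, h1, h3, h4] at g4
    rw [h3, h4, h5] at g5
    rw [g0_pl, g0_lp] at g1
    rw [g0_lp, g0_pl] at g2
    rw [g0_pl, g0_lp] at g3
    rw [g0_lp, g0_pl] at g4
    rw [g0_pl, g0_lp] at g5
    have wab : a.1 < b.1 := by
      rcases cd_lt g1 with h | h
      · exact absurd h (lt_irrefl _)
      · exact h.2
    have wbc : b.1 < c.1 := by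
      rcases cd_lt g5 with h | h
      · exact absurd h (lt_irrefl _)
      · exact h.2
    have := core l1 l2 l3 l4 a b c (cd_le_line g2) (cd_le_line g3) (cd_le_line g4) a12 a01 a23 a34
      a56 a45 wab wbc
    subst this
    have := hinj (h2.trans h6.symm)
    exact absurd this (by decide)
  · rcases h1 : φ 1 with l | a
    swap
    · rw [h0, h1] at a01; exact a01
    rcases h2 : φ 2 with l1 | p2
    · rw [h1, h2] at a12; exact a12
    rcases h3 : φ 3 with l' | b
    swap
    · rw [h2, h3] at a23; exact a23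
    have g34 : g0 s(φ 2, φ 3) < g0 s(φ 0, φ 1) := g2.trans g3
    rw [h1, h2, h3] at g1
    rw [h0, h1, h2, h3] at g34
    rw [g0_lp, g0_pl] at g1
    rw [g0_pl, g0_pl] at g34
    have e1 := cd_le_line g1
    have e2 := cd_le_line g34
    have e3 : l = l' := le_antisymm e1 e2
    subst e3
    have := hinj (h1.trans h3.symm)
    exact absurd this (by decide)

end Host

end Pool.Agent.Work.MP_97f5de_co
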