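import Mathlib
import Pool.Agent.Work.MP_97f5de_co.Host

namespace Pool.Agent.Work.MP_97f5de_co

open Finset

lemma card_vert (k N W : ℕ) : Fintype.card (Ln k N ⊕ Pt k N W)
    = N ^ k * 2 ^ k + W * (N + W) ^ k := by
  have h1 : Fintype.card (Ln k N) = N ^ k * 2 ^ k := by
    change Fintype.card ((Fin k → Fin N) × (Fin k → Fin 2)) = _
    simp
  rw [Fintype.card_sum, h1]
  simp

lemma edges_ge (k N W : ℕ) : N ^ k * 2 ^ k * W ≤ (G0 k N W).edgeSet.ncard := by
  let F : Ln k N × Fin W → Sym2 (Ln k N ⊕ Pt k N W) :=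
    fun q => s(Sum.inl q.1, Sum.inr (pt q.1 q.2))
  have hF : Function.Injective F := by
    intro q q' h
    simp only [F, Sym2.eq_iff] at h
    rcases h with ⟨h1, h2⟩ | ⟨h1, h2⟩
    · have e1 := Sum.inl_injective h1
      have e2 := Sum.inr_injective h2
      have e3 : q.2 = q'.2 := congrArg Prod.fst e2
      exact Prod.ext e1 e3
    · exact absurd h1 (by simp)
  have hsub : Set.range F ⊆ (G0 k N W).edgeSet := by
    rintro e ⟨q, rfl⟩
    exact inc_pt q.1 q.2
  have h1 := Set.ncard_le_ncard hsub (Set.toFinite _)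
  have h2 : (Set.range F).ncard = N ^ k * 2 ^ k * W := by
    rw [← Set.image_univ, Set.ncard_image_of_injective _ hF, Set.ncard_univ,
      Nat.card_eq_fintype_card]
    change Fintype.card (((Fin k → Fin N) × (Fin k → Fin 2)) × Fin W) = _
    simp
  omega

lemma transport {V : Type*} [Fintype V] (G : SimpleGraph V) (g : Sym2 V → ℕ)
    (hinj : Set.InjOn g G.edgeSet)
    (hfree : ¬ ∃ φ : Fin 7 → V, Function.Injective φ ∧
      (∀ u v : Fin 7, P7.Adj u v → G.Adj (φ u) (φ v)) ∧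
      ∀ e₁ ∈ P7.edgeSet, ∀ e₂ ∈ P7.edgeSet,
        rk e₁ < rk e₂ → g (Sym2.map φ e₁) < g (Sym2.map φ e₂)) :
    ∃ G' : SimpleGraph (Fin (Fintype.card V)), ∃ g' : Sym2 (Fin (Fintype.card V)) → ℕ,
      Set.InjOn g' G'.edgeSet ∧
      (¬ ∃ φ : Fin 7 → Fin (Fintype.card V), Function.Injective φ ∧
        (∀ u v : Fin 7, P7.Adj u v → G'.Adj (φ u) (φ v)) ∧
        ∀ e₁ ∈ P7.edgeSet, ∀ e₂ ∈ P7.edgeSet,
          rk e₁ < rk e₂ → g' (Sym2.map φ e₁) < g' (Sym2.map φ e₂)) ∧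
      G'.edgeSet.ncard = G.edgeSet.ncard := by
  let E : Fin (Fintype.card V) ≃ V := (Fintype.equivFin V).symm
  have hmapinj : Function.Injective (Sym2.map E) := Sym2.map.injective E.injective
  have hmem : ∀ e : Sym2 (Fin (Fintype.card V)), e ∈ (G.comap E).edgeSet ↔
      Sym2.map E e ∈ G.edgeSet := by
    intro e
    induction e with
    | _ a b => rfl
  refine ⟨G.comap E, fun e => g (Sym2.map E e), ?_, ?_, ?_⟩
  · intro e he e' he' h
    exact hmapinj (hinj ((hmem e).1 he) ((hmem e').1 he') h)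
  · rintro ⟨φ, hφ, hadj, hord⟩
    apply hfree
    refine ⟨E ∘ φ, E.injective.comp hφ, fun u v h => hadj u v h, ?_⟩
    intro e₁ he₁ e₂ he₂ hlt
    have := hord e₁ he₁ e₂ he₂ hlt
    simpa only [Sym2.map_map] using this
  · have : Sym2.map E '' (G.comap E).edgeSet = G.edgeSet := by
      ext e
      constructor
      · rintro ⟨e', he', rfl⟩
        exact (hmem e').1 he'
      · intro he
        refine ⟨Sym2.map E.symm e, ?_, ?_⟩
        · rw [hmem, Sym2.map_map]
          have : (E ∘ E.symm) = id := by funext x; simp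
          rw [this, Sym2.map_id]
          exact he
        · rw [Sym2.map_map]
          have : (E ∘ E.symm) = id := by funext x; simp
          rw [this, Sym2.map_id]
          rfl
    rw [← this, Set.ncard_image_of_injective _ hmapinj]

/-- numerical estimate: `(2k+1)^k ≤ 2 (2k)^k` -/
lemma pow_bound (k : ℕ) (hk : 1 ≤ k) (W : ℕ) : (2 * k * W + W) ^ k ≤ 2 * (2 * k * W) ^ k := by
  have h0 : (0 : ℝ) < 2 * k + 1 := by positivity
  have h1 : (1 / 2 : ℝ) ≤ (2 * k / (2 * k + 1)) ^ k := by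
    have h2 := one_add_mul_le_pow (a := (-(1 / (2 * k + 1)) : ℝ)) (by
      have : (1 : ℝ) / (2 * k + 1) ≤ 1 := by
        rw [div_le_one h0]
        have : (0 : ℝ) ≤ 2 * k := by positivity
        linarith
      linarith) k
    have h3 : (1 : ℝ) + -(1 / (2 * k + 1)) = 2 * k / (2 * k + 1) := by field_simp; ring
    rw [h3] at h2
    refine le_trans ?_ h2
    have h4 : (k : ℝ) * (1 / (2 * k + 1)) ≤ 1 / 2 := by
      rw [mul_one_div, div_le_div_iff₀ h0 (by norm_num)]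
      linarith
    linarith
  have h5 : ((2 * k + 1 : ℝ)) ^ k ≤ 2 * (2 * k) ^ k := by
    rw [div_pow] at h1
    rw [le_div_iff₀ (by positivity)] at h1
    linarith
  have h6 : ((2 * k * W + W : ℕ) : ℝ) ^ k ≤ 2 * ((2 * k * W : ℕ) : ℝ) ^ k := by
    have e1 : ((2 * k * W + W : ℕ) : ℝ) = (2 * k + 1) * W := by push_cast; ring
    have e2 : ((2 * k * W : ℕ) : ℝ) = (2 * k) * W := by push_cast; ring
    rw [e1, e2, mul_pow, mul_pow]
    have : (0 : ℝ) ≤ (W : ℝ) ^ k := by positivity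
    nlinarith
  exact_mod_cast h6

lemma two_mul_le_two_pow (k : ℕ) : 2 * k ≤ 2 ^ k := by
  induction k with
  | zero => simp
  | succ n ih =>
    rcases Nat.eq_zero_or_pos n with h | h
    · subst h; norm_num
    · rw [pow_succ]; omega

/-- main estimate -/
theorem many_edges (C : ℝ) (N0 : ℕ) : ∃ k N W : ℕ,
    N0 ≤ Fintype.card (Ln k N ⊕ Pt k N W) ∧
    C * (Fintype.card (Ln k N ⊕ Pt k N W) : ℝ) *
      Real.log (Fintype.card (Ln k N ⊕ Pt k N W) : ℝ) < ((G0 k N W).edgeSet.ncard : ℝ) := by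
  -- choose k large
  have hlim := tendsto_pow_const_div_const_pow_of_one_lt 2 (r := (2 : ℝ)) (by norm_num)
  have hev : ∀ᶠ k : ℕ in Filter.atTop, (k : ℝ) ^ 2 / 2 ^ k < 1 / (20 * (|C| + 1)) := by
    have := hlim.eventually (gt_mem_nhds (show (0 : ℝ) < 1 / (20 * (|C| + 1)) by positivity))
    exact this
  obtain ⟨k, hk, hk1⟩ := (hev.and (Filter.eventually_ge_atTop (max N0 1))).exists
  have hk0 : 1 ≤ k := le_trans (le_max_right _ _) hk1
  have hkN : N0 ≤ k := le_trans (le_max_left _ _) hk1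
  set W := 2 ^ k with hW
  set N := 2 * k * W with hN
  refine ⟨k, N, W, ?_, ?_⟩
  · rw [card_vert]
    have h1 : 1 ≤ N := by
      rw [hN]
      have : 1 ≤ W := Nat.one_le_two_pow
      nlinarith
    have h2 : 1 ≤ N ^ k := Nat.one_le_pow _ _ h1
    have h3 : k < 2 ^ k := Nat.lt_two_pow_self
    nlinarith [Nat.zero_le (W * (N + W) ^ k)]
  · rw [card_vert]
    have hE := edges_ge k N W
    have hE' : ((N : ℝ) ^ k * 2 ^ k * W) ≤ ((G0 k N W).edgeSet.ncard : ℝ) := by exact_mod_cast hE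
    refine lt_of_lt_of_le ?_ hE'
    -- bound n
    have hn : N ^ k * 2 ^ k + W * (N + W) ^ k ≤ 4 * 2 ^ k * N ^ k := by
      have := pow_bound k hk0 W
      rw [← hN] at this
      have h2 : W * (N + W) ^ k ≤ W * (2 * N ^ k) := Nat.mul_le_mul_left _ this
      rw [hW] at h2 ⊢
      nlinarith [Nat.zero_le (2 ^ k * N ^ k)]
    have hNpos : 1 ≤ N := by
      rw [hN]
      have : 1 ≤ W := Nat.one_le_two_pow
      nlinarith
    have hNle : N ≤ 4 ^ k := by
      rw [hN, hW]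
      calc 2 * k * 2 ^ k ≤ 2 ^ k * 2 ^ k := Nat.mul_le_mul_right _ (two_mul_le_two_pow k)
        _ = 4 ^ k := by rw [← mul_pow]; norm_num
    have hn2 : N ^ k * 2 ^ k + W * (N + W) ^ k ≤ 2 ^ (5 * k ^ 2) := by
      refine hn.trans ?_
      calc 4 * 2 ^ k * N ^ k ≤ 4 * 2 ^ k * (4 ^ k) ^ k :=
            Nat.mul_le_mul_left _ (Nat.pow_le_pow_left hNle k)
        _ = 2 ^ (2 + k + 2 * (k * k)) := by
            rw [show (4 : ℕ) = 2 ^ 2 by norm_num]
            rw [← pow_mul, ← pow_mul, ← pow_add, ← pow_add]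
        _ ≤ 2 ^ (5 * k ^ 2) := by
            apply Nat.pow_le_pow_right (by norm_num)
            nlinarith
    have hpos : (1 : ℝ) ≤ ((N ^ k * 2 ^ k + W * (N + W) ^ k : ℕ) : ℝ) := by
      have : 1 ≤ N ^ k * 2 ^ k := Nat.one_le_iff_ne_zero.2 (by positivity)
      exact_mod_cast this.trans (Nat.le_add_right _ _)
    have hlog : Real.log ((N ^ k * 2 ^ k + W * (N + W) ^ k : ℕ) : ℝ) ≤ 5 * k ^ 2 := by
      have h1 : Real.log ((N ^ k * 2 ^ k + W * (N + W) ^ k : ℕ) : ℝ) ≤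
          Real.log ((2 : ℝ) ^ (5 * k ^ 2)) := by
        apply Real.log_le_log (by linarith)
        exact_mod_cast hn2
      rw [Real.log_pow] at h1
      have h2 : Real.log 2 ≤ 1 := by
        have := Real.log_two_lt_d9
        linarith
      have h3 : ((5 * k ^ 2 : ℕ) : ℝ) * Real.log 2 ≤ ((5 * k ^ 2 : ℕ) : ℝ) * 1 :=
        mul_le_mul_of_nonneg_left h2 (by positivity)
      push_cast at h1 h3 ⊢
      linarith
    have hlog0 : 0 ≤ Real.log ((N ^ k * 2 ^ k + W * (N + W) ^ k : ℕ) : ℝ) := Real.log_nonneg hpos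
    have hn' : ((N ^ k * 2 ^ k + W * (N + W) ^ k : ℕ) : ℝ) ≤ 4 * 2 ^ k * (N : ℝ) ^ k := by
      exact_mod_cast hn
    have hk' : 20 * (|C| + 1) * (k : ℝ) ^ 2 < 2 ^ k := by
      rw [div_lt_div_iff₀ (by positivity) (by positivity)] at hk
      linarith
    generalize ((N ^ k * 2 ^ k + W * (N + W) ^ k : ℕ) : ℝ) = n at *
    have hNk : (1 : ℝ) ≤ (N : ℝ) ^ k := by
      have : 1 ≤ N ^ k := Nat.one_le_pow _ _ hNpos
      exact_mod_cast this
    have hCn : C * n * Real.log n ≤ |C| * (4 * 2 ^ k * (N : ℝ) ^ k) * (5 * k ^ 2) := by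
      have h1 : C * n ≤ |C| * (4 * 2 ^ k * (N : ℝ) ^ k) := by
        calc C * n ≤ |C| * n := mul_le_mul_of_nonneg_right (le_abs_self C) (by linarith)
          _ ≤ _ := mul_le_mul_of_nonneg_left hn' (abs_nonneg C)
      calc C * n * Real.log n ≤ (|C| * (4 * 2 ^ k * (N : ℝ) ^ k)) * Real.log n :=
            mul_le_mul_of_nonneg_right h1 hlog0
        _ ≤ _ := mul_le_mul_of_nonneg_left hlog (by positivity)
    refine lt_of_le_of_lt hCn ?_
    have hWr : (W : ℝ) = 2 ^ k := by rw [hW]; push_cast; ring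
    rw [hWr]
    have h2k : (0 : ℝ) < 2 ^ k := by positivity
    have hX : (0 : ℝ) < (N : ℝ) ^ k * 2 ^ k := by positivity
    have h3 : |C| * (4 * 2 ^ k * (N : ℝ) ^ k) * (5 * (k : ℝ) ^ 2) =
        ((N : ℝ) ^ k * 2 ^ k) * (20 * |C| * (k : ℝ) ^ 2) := by ring
    rw [h3]
    apply mul_lt_mul_of_pos_left _ hX
    refine lt_of_le_of_lt ?_ hk'
    have : (0 : ℝ) ≤ (k : ℝ) ^ 2 := by positivity
    nlinarith

end Pool.Agent.Work.MP_97f5de_co
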